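import Pool.Agent.Q10.E8.Roots
import Mathlib

set_option autoImplicit false

/-!
[RSF] (helper54), part 1: the sum of the eighth powers over the list of the roots.
-/

namespace Pool.Agent.Helper17K9.WP.RsfL

open Pool.Agent.Q10.E8

deriving instance DecidableEq for V8

/-- moments of a list -/
def mom (A : List ℤ) (k : ℕ) : ℤ := (A.map fun a => a ^ k).sum

theorem mom_cons (a : ℤ) (A : List ℤ) (k : ℕ) : mom (a :: A) k = a ^ k + mom A k := by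
  simp [mom]

theorem sgl (a : ℤ) (B : List ℤ) : (B.map fun b => (a + b) ^ 8).sum =
    mom B 8 + 8 * a * mom B 7 + 28 * a ^ 2 * mom B 6 + 56 * a ^ 3 * mom B 5 + 70 * a ^ 4 * mom B 4
      + 56 * a ^ 5 * mom B 3 + 28 * a ^ 6 * mom B 2 + 8 * a ^ 7 * mom B 1 + a ^ 8 * mom B 0 := by
  induction B with
  | nil => simp [mom]
  | cons b B ih =>
    simp only [mom_cons, List.map_cons, List.sum_cons, ih]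
    ring

theorem dbl (A B : List ℤ) : (A.map fun a => (B.map fun b => (a + b) ^ 8).sum).sum =
    mom A 0 * mom B 8 + 8 * mom A 1 * mom B 7 + 28 * mom A 2 * mom B 6 + 56 * mom A 3 * mom B 5
      + 70 * mom A 4 * mom B 4 + 56 * mom A 5 * mom B 3 + 28 * mom A 6 * mom B 2
      + 8 * mom A 7 * mom B 1 + mom A 8 * mom B 0 := by
  induction A with
  | nil => simp [mom]
  | cons a A ih =>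
    rw [List.map_cons, List.sum_cons, ih, sgl]
    simp only [mom_cons]
    ring

/-- even signs -/
def sP : List (ℤ × ℤ × ℤ × ℤ) := [
  (.ofNat 1, .ofNat 1, .ofNat 1, .ofNat 1),
  (.ofNat 1, .ofNat 1, .negSucc 0, .negSucc 0),
  (.ofNat 1, .negSucc 0, .ofNat 1, .negSucc 0),
  (.ofNat 1, .negSucc 0, .negSucc 0, .ofNat 1),
  (.negSucc 0, .ofNat 1, .ofNat 1, .negSucc 0),
  (.negSucc 0, .ofNat 1, .negSucc 0, .ofNat 1),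
  (.negSucc 0, .negSucc 0, .ofNat 1, .ofNat 1),
  (.negSucc 0, .negSucc 0, .negSucc 0, .negSucc 0)]

/-- odd signs -/
def sM : List (ℤ × ℤ × ℤ × ℤ) := [
  (.ofNat 1, .ofNat 1, .ofNat 1, .negSucc 0),
  (.ofNat 1, .ofNat 1, .negSucc 0, .ofNat 1),
  (.ofNat 1, .negSucc 0, .ofNat 1, .ofNat 1),
  (.ofNat 1, .negSucc 0, .negSucc 0, .negSucc 0),
  (.negSucc 0, .ofNat 1, .ofNat 1, .ofNat 1),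
  (.negSucc 0, .ofNat 1, .negSucc 0, .negSucc 0),
  (.negSucc 0, .negSucc 0, .ofNat 1, .negSucc 0),
  (.negSucc 0, .negSucc 0, .negSucc 0, .ofNat 1)]

/-- two sign vectors -/
def mk (a b : ℤ × ℤ × ℤ × ℤ) : V8 :=
  ⟨a.1, a.2.1, a.2.2.1, a.2.2.2, b.1, b.2.1, b.2.2.1, b.2.2.2⟩

/-- the 112 vectors -/
def DL : List V8 := [
  ⟨(.ofNat 2), (.ofNat 2), (.ofNat 0), (.ofNat 0), (.ofNat 0), (.ofNat 0), (.ofNat 0), (.ofNat 0)⟩,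
  ⟨(.ofNat 2), (.negSucc 1), (.ofNat 0), (.ofNat 0), (.ofNat 0), (.ofNat 0), (.ofNat 0), (.ofNat 0)⟩,
  ⟨(.negSucc 1), (.ofNat 2), (.ofNat 0), (.ofNat 0), (.ofNat 0), (.ofNat 0), (.ofNat 0), (.ofNat 0)⟩,
  ⟨(.negSucc 1), (.negSucc 1), (.ofNat 0), (.ofNat 0), (.ofNat 0), (.ofNat 0), (.ofNat 0), (.ofNat 0)⟩,
  ⟨(.ofNat 2), (.ofNat 0), (.ofNat 2), (.ofNat 0), (.ofNat 0), (.ofNat 0), (.ofNat 0), (.ofNat 0)⟩,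
  ⟨(.ofNat 2), (.ofNat 0), (.negSucc 1), (.ofNat 0), (.ofNat 0), (.ofNat 0), (.ofNat 0), (.ofNat 0)⟩,
  ⟨(.negSucc 1), (.ofNat 0), (.ofNat 2), (.ofNat 0), (.ofNat 0), (.ofNat 0), (.ofNat 0), (.ofNat 0)⟩,
  ⟨(.negSucc 1), (.ofNat 0), (.negSucc 1), (.ofNat 0), (.ofNat 0), (.ofNat 0), (.ofNat 0), (.ofNat 0)⟩,
  ⟨(.ofNat 2), (.ofNat 0), (.ofNat 0), (.ofNat 2), (.ofNat 0), (.ofNat 0), (.ofNat 0), (.ofNat 0)⟩,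
  ⟨(.ofNat 2), (.ofNat 0), (.ofNat 0), (.negSucc 1), (.ofNat 0), (.ofNat 0), (.ofNat 0), (.ofNat 0)⟩,
  ⟨(.negSucc 1), (.ofNat 0), (.ofNat 0), (.ofNat 2), (.ofNat 0), (.ofNat 0), (.ofNat 0), (.ofNat 0)⟩,
  ⟨(.negSucc 1), (.ofNat 0), (.ofNat 0), (.negSucc 1), (.ofNat 0), (.ofNat 0), (.ofNat 0), (.ofNat 0)⟩,
  ⟨(.ofNat 2), (.ofNat 0), (.ofNat 0), (.ofNat 0), (.ofNat 2), (.ofNat 0), (.ofNat 0), (.ofNat 0)⟩,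
  ⟨(.ofNat 2), (.ofNat 0), (.ofNat 0), (.ofNat 0), (.negSucc 1), (.ofNat 0), (.ofNat 0), (.ofNat 0)⟩,
  ⟨(.negSucc 1), (.ofNat 0), (.ofNat 0), (.ofNat 0), (.ofNat 2), (.ofNat 0), (.ofNat 0), (.ofNat 0)⟩,
  ⟨(.negSucc 1), (.ofNat 0), (.ofNat 0), (.ofNat 0), (.negSucc 1), (.ofNat 0), (.ofNat 0), (.ofNat 0)⟩,
  ⟨(.ofNat 2), (.ofNat 0), (.ofNat 0), (.ofNat 0), (.ofNat 0), (.ofNat 2), (.ofNat 0), (.ofNat 0)⟩,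
  ⟨(.ofNat 2), (.ofNat 0), (.ofNat 0), (.ofNat 0), (.ofNat 0), (.negSucc 1), (.ofNat 0), (.ofNat 0)⟩,
  ⟨(.negSucc 1), (.ofNat 0), (.ofNat 0), (.ofNat 0), (.ofNat 0), (.ofNat 2), (.ofNat 0), (.ofNat 0)⟩,
  ⟨(.negSucc 1), (.ofNat 0), (.ofNat 0), (.ofNat 0), (.ofNat 0), (.negSucc 1), (.ofNat 0), (.ofNat 0)⟩,
  ⟨(.ofNat 2), (.ofNat 0), (.ofNat 0), (.ofNat 0), (.ofNat 0), (.ofNat 0), (.ofNat 2), (.ofNat 0)⟩,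
  ⟨(.ofNat 2), (.ofNat 0), (.ofNat 0), (.ofNat 0), (.ofNat 0), (.ofNat 0), (.negSucc 1), (.ofNat 0)⟩,
  ⟨(.negSucc 1), (.ofNat 0), (.ofNat 0), (.ofNat 0), (.ofNat 0), (.ofNat 0), (.ofNat 2), (.ofNat 0)⟩,
  ⟨(.negSucc 1), (.ofNat 0), (.ofNat 0), (.ofNat 0), (.ofNat 0), (.ofNat 0), (.negSucc 1), (.ofNat 0)⟩,
  ⟨(.ofNat 2), (.ofNat 0), (.ofNat 0), (.ofNat 0), (.ofNat 0), (.ofNat 0), (.ofNat 0), (.ofNat 2)⟩,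
  ⟨(.ofNat 2), (.ofNat 0), (.ofNat 0), (.ofNat 0), (.ofNat 0), (.ofNat 0), (.ofNat 0), (.negSucc 1)⟩,
  ⟨(.negSucc 1), (.ofNat 0), (.ofNat 0), (.ofNat 0), (.ofNat 0), (.ofNat 0), (.ofNat 0), (.ofNat 2)⟩,
  ⟨(.negSucc 1), (.ofNat 0), (.ofNat 0), (.ofNat 0), (.ofNat 0), (.ofNat 0), (.ofNat 0), (.negSucc 1)⟩,
  ⟨(.ofNat 0), (.ofNat 2), (.ofNat 2), (.ofNat 0), (.ofNat 0), (.ofNat 0), (.ofNat 0), (.ofNat 0)⟩,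
  ⟨(.ofNat 0), (.ofNat 2), (.negSucc 1), (.ofNat 0), (.ofNat 0), (.ofNat 0), (.ofNat 0), (.ofNat 0)⟩,
  ⟨(.ofNat 0), (.negSucc 1), (.ofNat 2), (.ofNat 0), (.ofNat 0), (.ofNat 0), (.ofNat 0), (.ofNat 0)⟩,
  ⟨(.ofNat 0), (.negSucc 1), (.negSucc 1), (.ofNat 0), (.ofNat 0), (.ofNat 0), (.ofNat 0), (.ofNat 0)⟩,
  ⟨(.ofNat 0), (.ofNat 2), (.ofNat 0), (.ofNat 2), (.ofNat 0), (.ofNat 0), (.ofNat 0), (.ofNat 0)⟩,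
  ⟨(.ofNat 0), (.ofNat 2), (.ofNat 0), (.negSucc 1), (.ofNat 0), (.ofNat 0), (.ofNat 0), (.ofNat 0)⟩,
  ⟨(.ofNat 0), (.negSucc 1), (.ofNat 0), (.ofNat 2), (.ofNat 0), (.ofNat 0), (.ofNat 0), (.ofNat 0)⟩,
  ⟨(.ofNat 0), (.negSucc 1), (.ofNat 0), (.negSucc 1), (.ofNat 0), (.ofNat 0), (.ofNat 0), (.ofNat 0)⟩,
  ⟨(.ofNat 0), (.ofNat 2), (.ofNat 0), (.ofNat 0), (.ofNat 2), (.ofNat 0), (.ofNat 0), (.ofNat 0)⟩,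
  ⟨(.ofNat 0), (.ofNat 2), (.ofNat 0), (.ofNat 0), (.negSucc 1), (.ofNat 0), (.ofNat 0), (.ofNat 0)⟩,
  ⟨(.ofNat 0), (.negSucc 1), (.ofNat 0), (.ofNat 0), (.ofNat 2), (.ofNat 0), (.ofNat 0), (.ofNat 0)⟩,
  ⟨(.ofNat 0), (.negSucc 1), (.ofNat 0), (.ofNat 0), (.negSucc 1), (.ofNat 0), (.ofNat 0), (.ofNat 0)⟩,
  ⟨(.ofNat 0), (.ofNat 2), (.ofNat 0), (.ofNat 0), (.ofNat 0), (.ofNat 2), (.ofNat 0), (.ofNat 0)⟩,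
  ⟨(.ofNat 0), (.ofNat 2), (.ofNat 0), (.ofNat 0), (.ofNat 0), (.negSucc 1), (.ofNat 0), (.ofNat 0)⟩,
  ⟨(.ofNat 0), (.negSucc 1), (.ofNat 0), (.ofNat 0), (.ofNat 0), (.ofNat 2), (.ofNat 0), (.ofNat 0)⟩,
  ⟨(.ofNat 0), (.negSucc 1), (.ofNat 0), (.ofNat 0), (.ofNat 0), (.negSucc 1), (.ofNat 0), (.ofNat 0)⟩,
  ⟨(.ofNat 0), (.ofNat 2), (.ofNat 0), (.ofNat 0), (.ofNat 0), (.ofNat 0), (.ofNat 2), (.ofNat 0)⟩,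
  ⟨(.ofNat 0), (.ofNat 2), (.ofNat 0), (.ofNat 0), (.ofNat 0), (.ofNat 0), (.negSucc 1), (.ofNat 0)⟩,
  ⟨(.ofNat 0), (.negSucc 1), (.ofNat 0), (.ofNat 0), (.ofNat 0), (.ofNat 0), (.ofNat 2), (.ofNat 0)⟩,
  ⟨(.ofNat 0), (.negSucc 1), (.ofNat 0), (.ofNat 0), (.ofNat 0), (.ofNat 0), (.negSucc 1), (.ofNat 0)⟩,
  ⟨(.ofNat 0), (.ofNat 2), (.ofNat 0), (.ofNat 0), (.ofNat 0), (.ofNat 0), (.ofNat 0), (.ofNat 2)⟩,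
  ⟨(.ofNat 0), (.ofNat 2), (.ofNat 0), (.ofNat 0), (.ofNat 0), (.ofNat 0), (.ofNat 0), (.negSucc 1)⟩,
  ⟨(.ofNat 0), (.negSucc 1), (.ofNat 0), (.ofNat 0), (.ofNat 0), (.ofNat 0), (.ofNat 0), (.ofNat 2)⟩,
  ⟨(.ofNat 0), (.negSucc 1), (.ofNat 0), (.ofNat 0), (.ofNat 0), (.ofNat 0), (.ofNat 0), (.negSucc 1)⟩,
  ⟨(.ofNat 0), (.ofNat 0), (.ofNat 2), (.ofNat 2), (.ofNat 0), (.ofNat 0), (.ofNat 0), (.ofNat 0)⟩,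
  ⟨(.ofNat 0), (.ofNat 0), (.ofNat 2), (.negSucc 1), (.ofNat 0), (.ofNat 0), (.ofNat 0), (.ofNat 0)⟩,
  ⟨(.ofNat 0), (.ofNat 0), (.negSucc 1), (.ofNat 2), (.ofNat 0), (.ofNat 0), (.ofNat 0), (.ofNat 0)⟩,
  ⟨(.ofNat 0), (.ofNat 0), (.negSucc 1), (.negSucc 1), (.ofNat 0), (.ofNat 0), (.ofNat 0), (.ofNat 0)⟩,
  ⟨(.ofNat 0), (.ofNat 0), (.ofNat 2), (.ofNat 0), (.ofNat 2), (.ofNat 0), (.ofNat 0), (.ofNat 0)⟩,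
  ⟨(.ofNat 0), (.ofNat 0), (.ofNat 2), (.ofNat 0), (.negSucc 1), (.ofNat 0), (.ofNat 0), (.ofNat 0)⟩,
  ⟨(.ofNat 0), (.ofNat 0), (.negSucc 1), (.ofNat 0), (.ofNat 2), (.ofNat 0), (.ofNat 0), (.ofNat 0)⟩,
  ⟨(.ofNat 0), (.ofNat 0), (.negSucc 1), (.ofNat 0), (.negSucc 1), (.ofNat 0), (.ofNat 0), (.ofNat 0)⟩,
  ⟨(.ofNat 0), (.ofNat 0), (.ofNat 2), (.ofNat 0), (.ofNat 0), (.ofNat 2), (.ofNat 0), (.ofNat 0)⟩,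
  ⟨(.ofNat 0), (.ofNat 0), (.ofNat 2), (.ofNat 0), (.ofNat 0), (.negSucc 1), (.ofNat 0), (.ofNat 0)⟩,
  ⟨(.ofNat 0), (.ofNat 0), (.negSucc 1), (.ofNat 0), (.ofNat 0), (.ofNat 2), (.ofNat 0), (.ofNat 0)⟩,
  ⟨(.ofNat 0), (.ofNat 0), (.negSucc 1), (.ofNat 0), (.ofNat 0), (.negSucc 1), (.ofNat 0), (.ofNat 0)⟩,
  ⟨(.ofNat 0), (.ofNat 0), (.ofNat 2), (.ofNat 0), (.ofNat 0), (.ofNat 0), (.ofNat 2), (.ofNat 0)⟩,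
  ⟨(.ofNat 0), (.ofNat 0), (.ofNat 2), (.ofNat 0), (.ofNat 0), (.ofNat 0), (.negSucc 1), (.ofNat 0)⟩,
  ⟨(.ofNat 0), (.ofNat 0), (.negSucc 1), (.ofNat 0), (.ofNat 0), (.ofNat 0), (.ofNat 2), (.ofNat 0)⟩,
  ⟨(.ofNat 0), (.ofNat 0), (.negSucc 1), (.ofNat 0), (.ofNat 0), (.ofNat 0), (.negSucc 1), (.ofNat 0)⟩,
  ⟨(.ofNat 0), (.ofNat 0), (.ofNat 2), (.ofNat 0), (.ofNat 0), (.ofNat 0), (.ofNat 0), (.ofNat 2)⟩,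
  ⟨(.ofNat 0), (.ofNat 0), (.ofNat 2), (.ofNat 0), (.ofNat 0), (.ofNat 0), (.ofNat 0), (.negSucc 1)⟩,
  ⟨(.ofNat 0), (.ofNat 0), (.negSucc 1), (.ofNat 0), (.ofNat 0), (.ofNat 0), (.ofNat 0), (.ofNat 2)⟩,
  ⟨(.ofNat 0), (.ofNat 0), (.negSucc 1), (.ofNat 0), (.ofNat 0), (.ofNat 0), (.ofNat 0), (.negSucc 1)⟩,
  ⟨(.ofNat 0), (.ofNat 0), (.ofNat 0), (.ofNat 2), (.ofNat 2), (.ofNat 0), (.ofNat 0), (.ofNat 0)⟩,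
  ⟨(.ofNat 0), (.ofNat 0), (.ofNat 0), (.ofNat 2), (.negSucc 1), (.ofNat 0), (.ofNat 0), (.ofNat 0)⟩,
  ⟨(.ofNat 0), (.ofNat 0), (.ofNat 0), (.negSucc 1), (.ofNat 2), (.ofNat 0), (.ofNat 0), (.ofNat 0)⟩,
  ⟨(.ofNat 0), (.ofNat 0), (.ofNat 0), (.negSucc 1), (.negSucc 1), (.ofNat 0), (.ofNat 0), (.ofNat 0)⟩,
  ⟨(.ofNat 0), (.ofNat 0), (.ofNat 0), (.ofNat 2), (.ofNat 0), (.ofNat 2), (.ofNat 0), (.ofNat 0)⟩,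
  ⟨(.ofNat 0), (.ofNat 0), (.ofNat 0), (.ofNat 2), (.ofNat 0), (.negSucc 1), (.ofNat 0), (.ofNat 0)⟩,
  ⟨(.ofNat 0), (.ofNat 0), (.ofNat 0), (.negSucc 1), (.ofNat 0), (.ofNat 2), (.ofNat 0), (.ofNat 0)⟩,
  ⟨(.ofNat 0), (.ofNat 0), (.ofNat 0), (.negSucc 1), (.ofNat 0), (.negSucc 1), (.ofNat 0), (.ofNat 0)⟩,
  ⟨(.ofNat 0), (.ofNat 0), (.ofNat 0), (.ofNat 2), (.ofNat 0), (.ofNat 0), (.ofNat 2), (.ofNat 0)⟩,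
  ⟨(.ofNat 0), (.ofNat 0), (.ofNat 0), (.ofNat 2), (.ofNat 0), (.ofNat 0), (.negSucc 1), (.ofNat 0)⟩,
  ⟨(.ofNat 0), (.ofNat 0), (.ofNat 0), (.negSucc 1), (.ofNat 0), (.ofNat 0), (.ofNat 2), (.ofNat 0)⟩,
  ⟨(.ofNat 0), (.ofNat 0), (.ofNat 0), (.negSucc 1), (.ofNat 0), (.ofNat 0), (.negSucc 1), (.ofNat 0)⟩,
  ⟨(.ofNat 0), (.ofNat 0), (.ofNat 0), (.ofNat 2), (.ofNat 0), (.ofNat 0), (.ofNat 0), (.ofNat 2)⟩,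
  ⟨(.ofNat 0), (.ofNat 0), (.ofNat 0), (.ofNat 2), (.ofNat 0), (.ofNat 0), (.ofNat 0), (.negSucc 1)⟩,
  ⟨(.ofNat 0), (.ofNat 0), (.ofNat 0), (.negSucc 1), (.ofNat 0), (.ofNat 0), (.ofNat 0), (.ofNat 2)⟩,
  ⟨(.ofNat 0), (.ofNat 0), (.ofNat 0), (.negSucc 1), (.ofNat 0), (.ofNat 0), (.ofNat 0), (.negSucc 1)⟩,
  ⟨(.ofNat 0), (.ofNat 0), (.ofNat 0), (.ofNat 0), (.ofNat 2), (.ofNat 2), (.ofNat 0), (.ofNat 0)⟩,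
  ⟨(.ofNat 0), (.ofNat 0), (.ofNat 0), (.ofNat 0), (.ofNat 2), (.negSucc 1), (.ofNat 0), (.ofNat 0)⟩,
  ⟨(.ofNat 0), (.ofNat 0), (.ofNat 0), (.ofNat 0), (.negSucc 1), (.ofNat 2), (.ofNat 0), (.ofNat 0)⟩,
  ⟨(.ofNat 0), (.ofNat 0), (.ofNat 0), (.ofNat 0), (.negSucc 1), (.negSucc 1), (.ofNat 0), (.ofNat 0)⟩,
  ⟨(.ofNat 0), (.ofNat 0), (.ofNat 0), (.ofNat 0), (.ofNat 2), (.ofNat 0), (.ofNat 2), (.ofNat 0)⟩,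
  ⟨(.ofNat 0), (.ofNat 0), (.ofNat 0), (.ofNat 0), (.ofNat 2), (.ofNat 0), (.negSucc 1), (.ofNat 0)⟩,
  ⟨(.ofNat 0), (.ofNat 0), (.ofNat 0), (.ofNat 0), (.negSucc 1), (.ofNat 0), (.ofNat 2), (.ofNat 0)⟩,
  ⟨(.ofNat 0), (.ofNat 0), (.ofNat 0), (.ofNat 0), (.negSucc 1), (.ofNat 0), (.negSucc 1), (.ofNat 0)⟩,
  ⟨(.ofNat 0), (.ofNat 0), (.ofNat 0), (.ofNat 0), (.ofNat 2), (.ofNat 0), (.ofNat 0), (.ofNat 2)⟩,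
  ⟨(.ofNat 0), (.ofNat 0), (.ofNat 0), (.ofNat 0), (.ofNat 2), (.ofNat 0), (.ofNat 0), (.negSucc 1)⟩,
  ⟨(.ofNat 0), (.ofNat 0), (.ofNat 0), (.ofNat 0), (.negSucc 1), (.ofNat 0), (.ofNat 0), (.ofNat 2)⟩,
  ⟨(.ofNat 0), (.ofNat 0), (.ofNat 0), (.ofNat 0), (.negSucc 1), (.ofNat 0), (.ofNat 0), (.negSucc 1)⟩,
  ⟨(.ofNat 0), (.ofNat 0), (.ofNat 0), (.ofNat 0), (.ofNat 0), (.ofNat 2), (.ofNat 2), (.ofNat 0)⟩,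
  ⟨(.ofNat 0), (.ofNat 0), (.ofNat 0), (.ofNat 0), (.ofNat 0), (.ofNat 2), (.negSucc 1), (.ofNat 0)⟩,
  ⟨(.ofNat 0), (.ofNat 0), (.ofNat 0), (.ofNat 0), (.ofNat 0), (.negSucc 1), (.ofNat 2), (.ofNat 0)⟩,
  ⟨(.ofNat 0), (.ofNat 0), (.ofNat 0), (.ofNat 0), (.ofNat 0), (.negSucc 1), (.negSucc 1), (.ofNat 0)⟩,
  ⟨(.ofNat 0), (.ofNat 0), (.ofNat 0), (.ofNat 0), (.ofNat 0), (.ofNat 2), (.ofNat 0), (.ofNat 2)⟩,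
  ⟨(.ofNat 0), (.ofNat 0), (.ofNat 0), (.ofNat 0), (.ofNat 0), (.ofNat 2), (.ofNat 0), (.negSucc 1)⟩,
  ⟨(.ofNat 0), (.ofNat 0), (.ofNat 0), (.ofNat 0), (.ofNat 0), (.negSucc 1), (.ofNat 0), (.ofNat 2)⟩,
  ⟨(.ofNat 0), (.ofNat 0), (.ofNat 0), (.ofNat 0), (.ofNat 0), (.negSucc 1), (.ofNat 0), (.negSucc 1)⟩,
  ⟨(.ofNat 0), (.ofNat 0), (.ofNat 0), (.ofNat 0), (.ofNat 0), (.ofNat 0), (.ofNat 2), (.ofNat 2)⟩,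
  ⟨(.ofNat 0), (.ofNat 0), (.ofNat 0), (.ofNat 0), (.ofNat 0), (.ofNat 0), (.ofNat 2), (.negSucc 1)⟩,
  ⟨(.ofNat 0), (.ofNat 0), (.ofNat 0), (.ofNat 0), (.ofNat 0), (.ofNat 0), (.negSucc 1), (.ofNat 2)⟩,
  ⟨(.ofNat 0), (.ofNat 0), (.ofNat 0), (.ofNat 0), (.ofNat 0), (.ofNat 0), (.negSucc 1), (.negSucc 1)⟩]

theorem AllR_perm : AllR.Perm (DL ++ ((sP.flatMap fun a => sP.map (mk a)) ++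
    (sM.flatMap fun a => sM.map (mk a)))) := by
  decide +kernel

/-- the linear form -/
def ph (x : Fin 8 → ℤ) (r : V8) : ℤ := x 0 * r.a0 + x 1 * r.a1 + x 2 * r.a2 + x 3 * r.a3
  + x 4 * r.a4 + x 5 * r.a5 + x 6 * r.a6 + x 7 * r.a7

/-- the linear form in four variables -/
def lin (a b c d : ℤ) (s : ℤ × ℤ × ℤ × ℤ) : ℤ := a * s.1 + b * s.2.1 + c * s.2.2.1 + d * s.2.2.2

theorem fm (s : List (ℤ × ℤ × ℤ × ℤ)) (t : List (ℤ × ℤ × ℤ × ℤ)) (φ : V8 → ℤ) :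
    (((s.flatMap fun a => t.map (mk a)).map φ).sum) =
      (s.map fun a => (t.map fun b => φ (mk a b)).sum).sum := by
  induction s with
  | nil => simp
  | cons a s ih =>
    rw [List.flatMap_cons, List.map_append, List.sum_append, ih, List.map_cons, List.sum_cons,
      List.map_map]
    rfl

theorem fm8 (x : Fin 8 → ℤ) (s : List (ℤ × ℤ × ℤ × ℤ)) :
    (((s.flatMap fun a => s.map (mk a)).map fun r => ph x r ^ 8).sum) =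
      ((s.map (lin (x 0) (x 1) (x 2) (x 3))).map fun a =>
        ((s.map (lin (x 4) (x 5) (x 6) (x 7))).map fun b => (a + b) ^ 8).sum).sum := by
  rw [fm, List.map_map]
  congr 1
  apply List.map_congr_left
  intro a _
  show _ = ((s.map (lin (x 4) (x 5) (x 6) (x 7))).map
    fun b => (lin (x 0) (x 1) (x 2) (x 3) a + b) ^ 8).sum
  rw [List.map_map]
  congr 1
  apply List.map_congr_left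
  intro b _
  show ph x (mk a b) ^ 8 = (lin (x 0) (x 1) (x 2) (x 3) a + lin (x 4) (x 5) (x 6) (x 7) b) ^ 8
  congr 1
  unfold ph lin mk
  ring

theorem momP (a b c d : ℤ) : mom (sP.map (lin a b c d)) 0 = 8 ∧
    mom (sP.map (lin a b c d)) 1 = 0 ∧
    mom (sP.map (lin a b c d)) 2 = 8 * (a ^ 2 + b ^ 2 + c ^ 2 + d ^ 2) ∧
    mom (sP.map (lin a b c d)) 3 = 0 ∧
    mom (sP.map (lin a b c d)) 4 = 8 * (3 * (a ^ 2 + b ^ 2 + c ^ 2 + d ^ 2) ^ 2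
      - 2 * (a ^ 4 + b ^ 4 + c ^ 4 + d ^ 4)) + 192 * (a * b * c * d) ∧
    mom (sP.map (lin a b c d)) 5 = 0 ∧
    mom (sP.map (lin a b c d)) 7 = 0 := by
  simp only [mom, sP, lin, List.map_cons, List.map_nil, List.sum_cons, List.sum_nil,
    Int.ofNat_eq_natCast, Int.negSucc_eq]
  refine ⟨?_, ?_, ?_, ?_, ?_, ?_, ?_⟩ <;> push_cast <;> ring

theorem momM (a b c d : ℤ) : mom (sM.map (lin a b c d)) 0 = 8 ∧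
    mom (sM.map (lin a b c d)) 1 = 0 ∧
    mom (sM.map (lin a b c d)) 2 = 8 * (a ^ 2 + b ^ 2 + c ^ 2 + d ^ 2) ∧
    mom (sM.map (lin a b c d)) 3 = 0 ∧
    mom (sM.map (lin a b c d)) 4 = 8 * (3 * (a ^ 2 + b ^ 2 + c ^ 2 + d ^ 2) ^ 2
      - 2 * (a ^ 4 + b ^ 4 + c ^ 4 + d ^ 4)) - 192 * (a * b * c * d) ∧
    mom (sM.map (lin a b c d)) 5 = 0 ∧
    mom (sM.map (lin a b c d)) 7 = 0 := by
  simp only [mom, sM, lin, List.map_cons, List.map_nil, List.sum_cons, List.sum_nil,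
    Int.ofNat_eq_natCast, Int.negSucc_eq]
  refine ⟨?_, ?_, ?_, ?_, ?_, ?_, ?_⟩ <;> push_cast <;> ring

theorem momS (a b c d : ℤ) :
    mom (sP.map (lin a b c d)) 6 + mom (sM.map (lin a b c d)) 6 =
      16 * (15 * (a ^ 2 + b ^ 2 + c ^ 2 + d ^ 2) ^ 3
        - 30 * (a ^ 2 + b ^ 2 + c ^ 2 + d ^ 2) * (a ^ 4 + b ^ 4 + c ^ 4 + d ^ 4)
        + 16 * (a ^ 6 + b ^ 6 + c ^ 6 + d ^ 6)) ∧
    mom (sP.map (lin a b c d)) 8 + mom (sM.map (lin a b c d)) 8 =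
      16 * (105 * (a ^ 2 + b ^ 2 + c ^ 2 + d ^ 2) ^ 4
        - 420 * (a ^ 2 + b ^ 2 + c ^ 2 + d ^ 2) ^ 2 * (a ^ 4 + b ^ 4 + c ^ 4 + d ^ 4)
        + 448 * (a ^ 2 + b ^ 2 + c ^ 2 + d ^ 2) * (a ^ 6 + b ^ 6 + c ^ 6 + d ^ 6)
        + 140 * (a ^ 4 + b ^ 4 + c ^ 4 + d ^ 4) ^ 2
        - 272 * (a ^ 8 + b ^ 8 + c ^ 8 + d ^ 8)) := by
  simp only [mom, sP, sM, lin, List.map_cons, List.map_nil, List.sum_cons, List.sum_nil,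
    Int.ofNat_eq_natCast, Int.negSucc_eq]
  refine ⟨?_, ?_⟩ <;> push_cast <;> ring

theorem spin (x : Fin 8 → ℤ) (p1 p2 p3 p4 : ℤ)
    (h1 : p1 = x 0 ^ 2 + x 1 ^ 2 + x 2 ^ 2 + x 3 ^ 2 + x 4 ^ 2 + x 5 ^ 2 + x 6 ^ 2 + x 7 ^ 2)
    (h2 : p2 = x 0 ^ 4 + x 1 ^ 4 + x 2 ^ 4 + x 3 ^ 4 + x 4 ^ 4 + x 5 ^ 4 + x 6 ^ 4 + x 7 ^ 4)
    (h3 : p3 = x 0 ^ 6 + x 1 ^ 6 + x 2 ^ 6 + x 3 ^ 6 + x 4 ^ 6 + x 5 ^ 6 + x 6 ^ 6 + x 7 ^ 6)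
    (h4 : p4 = x 0 ^ 8 + x 1 ^ 8 + x 2 ^ 8 + x 3 ^ 8 + x 4 ^ 8 + x 5 ^ 8 + x 6 ^ 8 + x 7 ^ 8) :
    (((sP.flatMap fun a => sP.map (mk a)).map fun r => ph x r ^ 8).sum) +
    (((sM.flatMap fun a => sM.map (mk a)).map fun r => ph x r ^ 8).sum) =
      128 * (105 * p1 ^ 4 - 420 * p1 ^ 2 * p2 + 448 * p1 * p3 + 140 * p2 ^ 2 - 272 * p4
        + 40320 * (x 0 * x 1 * x 2 * x 3 * x 4 * x 5 * x 6 * x 7)) := by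
  rw [fm8, fm8, dbl, dbl]
  obtain ⟨a0, a1, a2, a3, a4, a5, a7⟩ := momP (x 0) (x 1) (x 2) (x 3)
  obtain ⟨b0, b1, b2, b3, b4, b5, b7⟩ := momM (x 0) (x 1) (x 2) (x 3)
  obtain ⟨c0, c1, c2, c3, c4, c5, c7⟩ := momP (x 4) (x 5) (x 6) (x 7)
  obtain ⟨d0, d1, d2, d3, d4, d5, d7⟩ := momM (x 4) (x 5) (x 6) (x 7)
  obtain ⟨e6, e8⟩ := momS (x 0) (x 1) (x 2) (x 3)
  obtain ⟨f6, f8⟩ := momS (x 4) (x 5) (x 6) (x 7)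
  rw [a0, a1, a2, a3, a4, a5, a7, b0, b1, b2, b3, b4, b5, b7, c0, c1, c2, c3, c4, c5, c7,
    d0, d1, d2, d3, d4, d5, d7]
  generalize mom (sP.map (lin (x 0) (x 1) (x 2) (x 3))) 6 = A6 at *
  generalize mom (sM.map (lin (x 0) (x 1) (x 2) (x 3))) 6 = B6 at *
  generalize mom (sP.map (lin (x 4) (x 5) (x 6) (x 7))) 6 = C6 at *
  generalize mom (sM.map (lin (x 4) (x 5) (x 6) (x 7))) 6 = D6 at *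
  generalize mom (sP.map (lin (x 0) (x 1) (x 2) (x 3))) 8 = A8 at *
  generalize mom (sM.map (lin (x 0) (x 1) (x 2) (x 3))) 8 = B8 at *
  generalize mom (sP.map (lin (x 4) (x 5) (x 6) (x 7))) 8 = C8 at *
  generalize mom (sM.map (lin (x 4) (x 5) (x 6) (x 7))) 8 = D8 at *
  obtain ⟨u1, hu1⟩ : ∃ u, u = x 0 ^ 2 + x 1 ^ 2 + x 2 ^ 2 + x 3 ^ 2 := ⟨_, rfl⟩
  obtain ⟨u2, hu2⟩ : ∃ u, u = x 0 ^ 4 + x 1 ^ 4 + x 2 ^ 4 + x 3 ^ 4 := ⟨_, rfl⟩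
  obtain ⟨u3, hu3⟩ : ∃ u, u = x 0 ^ 6 + x 1 ^ 6 + x 2 ^ 6 + x 3 ^ 6 := ⟨_, rfl⟩
  obtain ⟨u4, hu4⟩ : ∃ u, u = x 0 ^ 8 + x 1 ^ 8 + x 2 ^ 8 + x 3 ^ 8 := ⟨_, rfl⟩
  obtain ⟨w1, hw1⟩ : ∃ u, u = x 4 ^ 2 + x 5 ^ 2 + x 6 ^ 2 + x 7 ^ 2 := ⟨_, rfl⟩
  obtain ⟨w2, hw2⟩ : ∃ u, u = x 4 ^ 4 + x 5 ^ 4 + x 6 ^ 4 + x 7 ^ 4 := ⟨_, rfl⟩
  obtain ⟨w3, hw3⟩ : ∃ u, u = x 4 ^ 6 + x 5 ^ 6 + x 6 ^ 6 + x 7 ^ 6 := ⟨_, rfl⟩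
  obtain ⟨w4, hw4⟩ : ∃ u, u = x 4 ^ 8 + x 5 ^ 8 + x 6 ^ 8 + x 7 ^ 8 := ⟨_, rfl⟩
  rw [← hu1, ← hu2, ← hu3] at e6
  rw [← hu1, ← hu2, ← hu3, ← hu4] at e8
  rw [← hw1, ← hw2, ← hw3] at f6
  rw [← hw1, ← hw2, ← hw3, ← hw4] at f8
  rw [← hu1, ← hu2, ← hw1, ← hw2]
  have k1 : p1 = u1 + w1 := by rw [h1, hu1, hw1]; ring
  have k2 : p2 = u2 + w2 := by rw [h2, hu2, hw2]; ring
  have k3 : p3 = u3 + w3 := by rw [h3, hu3, hw3]; ring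
  have k4 : p4 = u4 + w4 := by rw [h4, hu4, hw4]; ring
  rw [k1, k2, k3, k4]
  linear_combination 8 * f8 + 224 * u1 * f6 + 224 * w1 * e6 + 8 * e8

theorem dpart (x : Fin 8 → ℤ) (p1 p2 p3 p4 : ℤ)
    (h1 : p1 = x 0 ^ 2 + x 1 ^ 2 + x 2 ^ 2 + x 3 ^ 2 + x 4 ^ 2 + x 5 ^ 2 + x 6 ^ 2 + x 7 ^ 2)
    (h2 : p2 = x 0 ^ 4 + x 1 ^ 4 + x 2 ^ 4 + x 3 ^ 4 + x 4 ^ 4 + x 5 ^ 4 + x 6 ^ 4 + x 7 ^ 4)
    (h3 : p3 = x 0 ^ 6 + x 1 ^ 6 + x 2 ^ 6 + x 3 ^ 6 + x 4 ^ 6 + x 5 ^ 6 + x 6 ^ 6 + x 7 ^ 6)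
    (h4 : p4 = x 0 ^ 8 + x 1 ^ 8 + x 2 ^ 8 + x 3 ^ 8 + x 4 ^ 8 + x 5 ^ 8 + x 6 ^ 8 + x 7 ^ 8) :
    ((DL.map fun r => ph x r ^ 8).sum) = 1024 * (28 * p3 * p1 + 35 * p2 ^ 2 - 56 * p4) := by
  simp only [DL, ph, List.map_cons, List.map_nil, List.sum_cons, List.sum_nil,
    Int.ofNat_eq_natCast, Int.negSucc_eq]
  rw [h1, h2, h3, h4]
  push_cast
  ring

theorem total (x : Fin 8 → ℤ) (p1 p2 p3 p4 : ℤ)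
    (h1 : p1 = x 0 ^ 2 + x 1 ^ 2 + x 2 ^ 2 + x 3 ^ 2 + x 4 ^ 2 + x 5 ^ 2 + x 6 ^ 2 + x 7 ^ 2)
    (h2 : p2 = x 0 ^ 4 + x 1 ^ 4 + x 2 ^ 4 + x 3 ^ 4 + x 4 ^ 4 + x 5 ^ 4 + x 6 ^ 4 + x 7 ^ 4)
    (h3 : p3 = x 0 ^ 6 + x 1 ^ 6 + x 2 ^ 6 + x 3 ^ 6 + x 4 ^ 6 + x 5 ^ 6 + x 6 ^ 6 + x 7 ^ 6)
    (h4 : p4 = x 0 ^ 8 + x 1 ^ 8 + x 2 ^ 8 + x 3 ^ 8 + x 4 ^ 8 + x 5 ^ 8 + x 6 ^ 8 + x 7 ^ 8) :
    ((AllR.map fun r => ph x r ^ 8).sum) = 128 * (672 * p3 * p1 + 420 * p2 ^ 2 - 720 * p4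
      - 420 * p2 * p1 ^ 2 + 105 * p1 ^ 4 + 40320 * (x 0 * x 1 * x 2 * x 3 * x 4 * x 5 * x 6 * x 7)) := by
  rw [(AllR_perm.map fun r => ph x r ^ 8).sum_eq, List.map_append, List.sum_append,
    List.map_append, List.sum_append, spin x p1 p2 p3 p4 h1 h2 h3 h4,
    dpart x p1 p2 p3 p4 h1 h2 h3 h4]
  ring

end Pool.Agent.Helper17K9.WP.RsfL
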